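import Pool.Agent.helper35.OT.Spec

/-!
# FIN: the end of Mahler's method
-/

set_option autoImplicit false

namespace Pool.Agent.helper35.OT

open Finset

theorem FIN_pow (ρ G : ℝ) (k n : ℕ) :
    (ρ ^ 2 ^ n) ^ (k ^ 2) * G ^ (k * 2 ^ n) = ((G * ρ ^ k) ^ k) ^ (2 ^ n) := by
  rw [mul_pow, mul_pow, ← pow_mul, ← pow_mul, ← pow_mul, ← pow_mul, mul_comm]
  have e : 2 ^ n * k ^ 2 = k * k * 2 ^ n := by ring
  rw [e, mul_assoc k k (2 ^ n)]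

theorem FIN (hTRN : TRN_stmt) (hPOL : POL_stmt) (hAUX : AUX_stmt) (hSMV : SMV_stmt)
    (hRZ : RZ_stmt) (hLIO : LIO_stmt) : FIN_stmt := by
  intro a c L ρ hD halg
  obtain ⟨z0, hz⟩ := hRZ a c L ρ hD
  obtain ⟨G, hG, hk⟩ := hLIO ρ c L (fun n => ∑' m, (a m : ℝ) * (ρ ^ 2 ^ n) ^ m) halg hD.c1 hD.ld
    z0 hz
  have hG0 : 0 < G := by linarith
  obtain ⟨k, hkρ⟩ : ∃ k : ℕ, ρ ^ k < 1 / G := exists_pow_lt_of_lt_one (by positivity) hD.r1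
  have hk1 : k ≠ 0 := by
    rintro rfl
    rw [pow_zero, lt_div_iff₀ hG0] at hkρ
    linarith
  have hGk : G * ρ ^ k < 1 := by
    rw [lt_div_iff₀ hG0] at hkρ
    linarith
  have hGk0 : 0 < G * ρ ^ k := mul_pos hG0 (pow_pos hD.r0 k)
  obtain ⟨e, he, hcoef⟩ := hAUX (gs a) k
  have hne : ev (pol k e) (gs a) ≠ 0 := hTRN a c L ρ hD _ (hPOL.1 k e he)
  obtain ⟨C', hC', n0, hn0⟩ := hSMV a ρ k (k ^ 2) e hD.r0 hD.r1 hD.sm hne hcoef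
  obtain ⟨C, hC, hCn⟩ := hk k e
  have ht1 : (G * ρ ^ k) ^ k < 1 := pow_lt_one₀ hGk0.le hGk hk1
  have ht0 : 0 < (G * ρ ^ k) ^ k := pow_pos hGk0 k
  obtain ⟨N, hN⟩ := exists_pow_lt_of_lt_one (div_pos hC hC') ht1
  have hle : N ≤ 2 ^ (max n0 N) := (le_max_right n0 N).trans Nat.lt_two_pow_self.le
  have h1 : ((G * ρ ^ k) ^ k) ^ (2 ^ (max n0 N)) < C / C' :=
    lt_of_le_of_lt (pow_le_pow_of_le_one ht0.le ht1.le hle) hN
  obtain ⟨h2, h3⟩ := hn0 (max n0 N) (le_max_left _ _)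
  have h4 := hCn (max n0 N) h2
  have h5 := mul_le_mul_of_nonneg_right h3 (pow_nonneg hG0.le (k * 2 ^ (max n0 N)))
  rw [mul_assoc, FIN_pow] at h5
  rw [lt_div_iff₀ hC'] at h1
  have h6 := h4.trans h5
  linarith [mul_comm C' (((G * ρ ^ k) ^ k) ^ (2 ^ (max n0 N)))]

end Pool.Agent.helper35.OT
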